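import Pool.Agent.TH874.BQG.Stm

/-!
# Lifting along `V[y_0,...,y_n] → V[y_0,...,y_n]/(y_n f(y_0 ⋯ y_n))` (assembly)
-/

set_option autoImplicit false

open Polynomial TensorProduct

noncomputable section

namespace Pool.Agent.TH148.BQG

open BQ Pool.Agent.W394.BQN Pool.Agent.TH874.BQS Pool.Agent.TH874.BQG

theorem idemFree_PA (hPEG : S_PEG) (V : Type) [CommRing V] [IsDomain V] [IsPrincipalIdealRing V]
    (n : ℕ) : IdemFree (PA V n)[X] := by
  obtain ⟨e, -⟩ := hPEG V n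
  have e1 : (PA V n)[X] ≃+* (MvPolynomial (Fin (n + 1)) V)[X] := Polynomial.mapEquiv e
  have e2 : MvPolynomial (Fin (n + 2)) V ≃+* (MvPolynomial (Fin (n + 1)) V)[X] :=
    (MvPolynomial.finSuccEquiv V (n + 1)).toRingEquiv
  exact IdemFree.of_equiv (e2.trans e1.symm) (quillen_suslin (n + 2) V)

theorem t_T4G (hGDV : S_GDV) (hPAIRF : S_PAIRF) (hVAR : Pool.Agent.TH874.BQS.S_VAR)
    (hLAUR : Pool.Agent.TH874.BQS.S_LAUR) (hTHX : Pool.Agent.TH874.BQS.S_THX)
    (hTHY : Pool.Agent.TH874.BQS.S_THY) (hPLG : S_PLG) (hPUG : S_PUG) (hPVG : S_PVG)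
    (hPEG : S_PEG) (hSSC : Pool.Agent.TH874.BQS.S_SSC) : S_T4G := by
  intro n
  induction n with
  | zero =>
    intro V _ _ _ f hf
    exact hPAIRF V f hf
  | succ n ih =>
    intro V _ _ _ f hf
    have hf0 : Prime (f.coeff 0) := hf.1
    have hfne : f ≠ 0 := by
      rintro rfl
      exact hf0.ne_zero (by simp)
    obtain ⟨hdom, hu, r, hr, hrk, hrv⟩ := hPUG V n
    have huv : ¬ pu V n ∣ ph V n f := by
      intro h
      have h1 := (hrk (ph V n f)).2 h
      rw [hrv] at h1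
      exact hf0.ne_zero (MvPolynomial.C_injective _ _ (by rw [h1, map_zero]))
    obtain ⟨hv, hvu⟩ : Prime (ph V n f) ∧ ¬ ph V n f ∣ pu V n := by
      obtain ⟨W, _, _, _, i, r', -, hr's, hr'k, -, hGP⟩ := hf.2
      obtain ⟨h1, h2, -⟩ := hPVG V f W r' hr's hr'k hfne hGP.prime n
      exact ⟨h1, h2⟩
    have h1 := ih V f hf
    obtain ⟨ι, hι, hιu, hιv⟩ := hPLG V n
    have h2 := (ih (VV V) (f.map (VV.j V)) (hGDV V f hf)).1
    have hΩ : SS (PA (VV V) n) (ι (C (pu V n * ph V n f))) := by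
      rw [map_mul, map_mul, hιu, hιv]
      exact h2
    have h3 : SS (PA V n)[X] (C (pu V n * ph V n f)) :=
      hVAR V (PA V n) (PA (VV V) n) (pj V n) ι hι _ h1.1 hΩ
    have hIF : IdemFree (PA V n)[X] := idemFree_PA hPEG V n
    have h4 : SS (LaurentPolynomial (PA V n)) (LaurentPolynomial.C (pu V n * ph V n f)) :=
      hLAUR V (PA V n) (PA (VV V) n) (pj V n) ι hι hIF _ h3 hΩ
    have h5 : SS (MvPolynomial (Fin n) V)[X] (C (r (ph V n f))) := by
      rw [hrv]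
      exact hSSC V (f.coeff 0) hf0 n
    have h6 : SS (Node (PA V n) (pu V n)) (Node.j (pu V n) (ph V n f)) :=
      hTHX (PA V n) (pu V n) (ph V n f) hu hv huv hvu (MvPolynomial (Fin n) V) r hr hrk hIF h3 h4
        h5
    have h7 : SS (Node (PA V n) (pu V n)) (Node.y (pu V n) * Node.j (pu V n) (ph V n f)) :=
      hTHY (PA V n) (pu V n) (ph V n f) hu hv huv hvu (MvPolynomial (Fin n) V) r hr hrk h3 h6
    exact ⟨h7, h6⟩

end Pool.Agent.TH148.BQG
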